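import Pool.Agent.X77.SD.LD
import Pool.Agent.TH966.KO.WEnd

/-!
# Mean and variance of the ratio of free plaquettes and bumps of a self-avoiding walk on `ℤ³`
-/

set_option autoImplicit false

namespace TH966.KO.X77

open Finset Filter Topology KN TH966.KS
open scoped Classical

noncomputable section

theorem card_KT {n : ℕ} (hn : 4 ≤ n) : ((KT n).card : ℝ) = c n := by
  rw [KT_eq hn, card_SS]

theorem mu0 : 0 < μ := by linarith [mu_one]

/-- the number of bad words is exponentially small -/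
theorem bd_small : ∃ θ C : ℝ, 0 < θ ∧ θ < 1 ∧ 0 ≤ C ∧ ∀ n : ℕ, bd n ≤ C * (θ * μ) ^ n := by
  obtain ⟨θ, C, h0, h1, hC, h⟩ := bad_all
  refine ⟨θ, C, h0, h1, hC, fun n => ?_⟩
  have h2 := h (fun _ => 1) cls_one n
  refine le_trans (le_of_eq ?_) h2
  unfold bd bad badf
  rw [sum_const, nsmul_eq_mul, mul_one]
  rfl

theorem bd_err : ∀ᶠ n : ℕ in atTop, bd (n + 2) + (6 * n + 10 ^ 16) * bd n ≤
    1 / n * (KT n).card := by
  obtain ⟨θ, C, h0, h1, hC, h⟩ := bd_small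
  have hμ := mu0
  have t1 := tendsto_pow_const_mul_const_pow_of_lt_one 1 h0.le h1
  have t2 := tendsto_pow_const_mul_const_pow_of_lt_one 2 h0.le h1
  have t3 : Tendsto (fun n : ℕ => (25 * C + 10 ^ 16 * C) * ((n : ℝ) ^ 1 * θ ^ n) +
      6 * C * ((n : ℝ) ^ 2 * θ ^ n)) atTop (𝓝 0) := by
    have := (t1.const_mul (25 * C + 10 ^ 16 * C)).add (t2.const_mul (6 * C))
    simpa using this
  filter_upwards [t3.eventually_le_const (show (0 : ℝ) < 1 by norm_num), eventually_ge_atTop 4]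
    with n hn h4
  have hn0 : (0 : ℝ) < n := by exact_mod_cast (show 0 < n by omega)
  rw [card_KT h4, one_div, inv_mul_eq_div, le_div_iff₀ hn0]
  refine le_trans ?_ (mu_pow n)
  have e1 : (θ * μ) ^ (n + 2) ≤ 25 * (θ * μ) ^ n := by
    rw [pow_add, mul_comm]
    refine mul_le_mul_of_nonneg_right ?_ (by positivity)
    have : θ * μ ≤ 5 := by nlinarith [mu_le]
    have h5 : 0 ≤ θ * μ := by positivity
    nlinarith
  have e2 : bd (n + 2) + (6 * n + 10 ^ 16) * bd n ≤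
      C * (25 * (θ * μ) ^ n) + (6 * n + 10 ^ 16) * (C * (θ * μ) ^ n) := by
    refine add_le_add ((h (n + 2)).trans (mul_le_mul_of_nonneg_left e1 hC)) ?_
    exact mul_le_mul_of_nonneg_left (h n) (by positivity)
  calc (bd (n + 2) + (6 * n + 10 ^ 16) * bd n) * n ≤
        (C * (25 * (θ * μ) ^ n) + (6 * n + 10 ^ 16) * (C * (θ * μ) ^ n)) * n :=
        mul_le_mul_of_nonneg_right e2 hn0.le
    _ = ((25 * C + 10 ^ 16 * C) * ((n : ℝ) ^ 1 * θ ^ n) + 6 * C * ((n : ℝ) ^ 2 * θ ^ n)) *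
          μ ^ n := by
        rw [mul_pow]; ring
    _ ≤ 1 * μ ^ n := mul_le_mul_of_nonneg_right hn (by positivity)
    _ = μ ^ n := one_mul _

/-- the transfer lemma, without the bad words -/
theorem tr2 : ∀ᶠ n : ℕ in atTop, ∀ (G : List Dir → ℝ) (M L : ℝ), 0 ≤ M → 0 ≤ L →
    (∀ w ∈ KT n, |G w| ≤ M) → (∀ w ∈ KT (n + 2), |G w| ≤ M) →
    (∀ w ∈ KT n, CONV.good n w → ∀ i d, site w i d → |G (ins w i d) - G w| ≤ L) →
    |∑ w ∈ KT (n + 2), G w - ∑ w ∈ KT n, X w * G w| ≤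
      (2 * 10 ^ 17 * M / n + 10 ^ 8 * L) * (KT n).card := by
  filter_upwards [bd_err, eventually_ge_atTop (10 ^ 10)] with n h1 hn G M L hM hL g1 g2 g3
  refine (transfer n hn G M L hM hL g1 g2 g3).trans ?_
  have hb := bd_nonneg n
  have hb2 := bd_nonneg (n + 2)
  have hn0 : (0 : ℝ) < n := by exact_mod_cast (show 0 < n by omega)
  have h2 : M * bd (n + 2) + (6 * n + 10 ^ 8) * M * bd n ≤ M * (1 / n * (KT n).card) := by
    have h3 : (6 * n + 10 ^ 8) * M * bd n ≤ M * ((6 * n + 10 ^ 16) * bd n) := by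
      have : 0 ≤ M * bd n := mul_nonneg hM hb
      nlinarith
    calc M * bd (n + 2) + (6 * n + 10 ^ 8) * M * bd n ≤
          M * bd (n + 2) + M * ((6 * n + 10 ^ 16) * bd n) := by linarith
      _ = M * (bd (n + 2) + (6 * n + 10 ^ 16) * bd n) := by ring
      _ ≤ _ := mul_le_mul_of_nonneg_left h1 hM
  have h4 : 0 ≤ M / n * (KT n).card := by positivity
  have e : (2 * 10 ^ 17 * M / n + 10 ^ 8 * L) * ((KT n).card : ℝ) =
      (10 ^ 17 * M / n + 10 ^ 8 * L) * (KT n).card + 10 ^ 17 * (M / n * (KT n).card) := by ring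
  have e2 : M * (1 / n * ((KT n).card : ℝ)) = M / n * (KT n).card := by ring
  rw [e]
  rw [e2] at h2
  linarith

/-- growth of the number of walks -/
theorem growth_E (a : ℝ) (ha : 1 / 3 < a) : ∃ K : ℝ, 0 ≤ K ∧ ∀ n : ℕ, 10 ^ 10 ≤ n →
    ∀ j : ℕ, 10 ^ 10 * j ≤ n →
      ((KT (n + 2 * j)).card : ℝ) ≤ (KT n).card * (μ ^ 2) ^ j * Real.exp (K * (n : ℝ) ^ a) ∧
      ((KT (n - 2 * j)).card : ℝ) * (μ ^ 2) ^ j ≤ (KT n).card * Real.exp (K * (n : ℝ) ^ a) := by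
  obtain ⟨K, hK0, hK⟩ := third a ha
  have hμ := mu0
  refine ⟨K, hK0, fun n hn j hj => ?_⟩
  rw [card_KT (show 4 ≤ n + 2 * j by omega), card_KT (show 4 ≤ n by omega),
    card_KT (show 4 ≤ n - 2 * j by omega), ← pow_mul]
  constructor
  · have h1 : (c (n + 2 * j) : ℝ) ≤ c n * c (2 * j) := by exact_mod_cast c_add n (2 * j)
    have h2 : (((2 * j : ℕ) : ℝ)) ^ a ≤ (n : ℝ) ^ a :=
      Real.rpow_le_rpow (Nat.cast_nonneg _) (by exact_mod_cast (by omega : 2 * j ≤ n))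
        (by linarith)
    calc (c (n + 2 * j) : ℝ) ≤ c n * c (2 * j) := h1
      _ ≤ c n * (μ ^ (2 * j) * Real.exp (K * (((2 * j : ℕ) : ℝ)) ^ a)) :=
          mul_le_mul_of_nonneg_left (hK _) (Nat.cast_nonneg _)
      _ ≤ c n * (μ ^ (2 * j) * Real.exp (K * (n : ℝ) ^ a)) := by
          refine mul_le_mul_of_nonneg_left (mul_le_mul_of_nonneg_left
            (Real.exp_le_exp.2 (mul_le_mul_of_nonneg_left h2 hK0)) (by positivity))
            (Nat.cast_nonneg _)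
      _ = _ := by ring
  · have h2 : (((n - 2 * j : ℕ) : ℝ)) ^ a ≤ (n : ℝ) ^ a :=
      Real.rpow_le_rpow (Nat.cast_nonneg _) (by exact_mod_cast (by omega : n - 2 * j ≤ n))
        (by linarith)
    calc (c (n - 2 * j) : ℝ) * μ ^ (2 * j)
        ≤ (μ ^ (n - 2 * j) * Real.exp (K * (((n - 2 * j : ℕ) : ℝ)) ^ a)) * μ ^ (2 * j) :=
          mul_le_mul_of_nonneg_right (hK _) (by positivity)
      _ ≤ (μ ^ (n - 2 * j) * Real.exp (K * (n : ℝ) ^ a)) * μ ^ (2 * j) := by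
          refine mul_le_mul_of_nonneg_right (mul_le_mul_of_nonneg_left
            (Real.exp_le_exp.2 (mul_le_mul_of_nonneg_left h2 hK0)) (by positivity))
            (by positivity)
      _ = μ ^ n * Real.exp (K * (n : ℝ) ^ a) := by
          have : μ ^ n = μ ^ (n - 2 * j) * μ ^ (2 * j) := by
            rw [← pow_add]
            congr 1
            omega
          rw [this]
          ring
      _ ≤ _ := mul_le_mul_of_nonneg_right (mu_pow n) (Real.exp_pos _).le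

/-- the mean square distance of the ratio from `μ²` -/
theorem var_small (ε : ℝ) (hε : 0 < ε) (hε1 : ε ≤ 1 / 3) : ∀ᶠ n : ℕ in atTop,
    ∑ w ∈ KT n, (X w - μ ^ 2) ^ 2 ≤ 3 * (n : ℝ) ^ (-(2 / 3 : ℝ) + ε) * (KT n).card := by
  have hμ := mu0
  have hμ2 : μ ^ 2 ≤ 25 := by nlinarith [mu_le]
  have hμ3 : 2 ≤ μ ^ 2 := by nlinarith [mu_ge]
  obtain ⟨K, hK0, hK⟩ := growth_E (1 / 3 + ε / 2) (by linarith)
  set a : ℝ := 1 / 3 + ε / 2 with ha
  have ha0 : 0 < a := by rw [ha]; linarith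
  have tc : Tendsto (fun n : ℕ => (n : ℝ)) atTop atTop := tendsto_natCast_atTop_atTop
  have t1 : Tendsto (fun n : ℕ => (n : ℝ) ^ (ε / 2)) atTop atTop :=
    (tendsto_rpow_atTop (by linarith)).comp tc
  have t2 : ∀ᶠ n : ℕ in atTop, Real.log n ≤ 1 / 4 * (n : ℝ) ^ a := by
    have h1 := (isLittleO_log_rpow_atTop ha0).bound (show (0 : ℝ) < 1 / 4 by norm_num)
    filter_upwards [tc.eventually h1] with n hn
    rw [Real.norm_eq_abs, Real.norm_eq_abs, abs_of_nonneg (Real.rpow_nonneg (Nat.cast_nonneg n) _)]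
      at hn
    exact (le_abs_self _).trans hn
  filter_upwards [bd_err, eventually_ge_atTop (2 * 10 ^ 18), t1.eventually_ge_atTop
    (10 ^ 13 * (K + 2)), t2] with n hb hn h1 h2
  have hnR : (2 : ℝ) * 10 ^ 18 ≤ n := by exact_mod_cast hn
  have hn0 : (0 : ℝ) < n := by linarith
  have hn1 : (1 : ℝ) ≤ n := by linarith
  have hn10 : 10 ^ 10 ≤ n := by omega
  set s : ℝ := (n : ℝ) ^ (-(1 / 3 : ℝ) + ε / 2) with hs
  have hs0 : 0 < s := Real.rpow_pos_of_pos hn0 _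
  have hs1 : s ≤ 1 := Real.rpow_le_one_of_one_le_of_nonpos hn1 (by linarith)
  have hs2 : s ^ 2 = (n : ℝ) ^ (-(2 / 3 : ℝ) + ε) := by
    rw [hs, ← Real.rpow_natCast, ← Real.rpow_mul hn0.le]
    congr 1
    push_cast
    ring
  have hsn : s ^ 2 * n = (n : ℝ) ^ a * (n : ℝ) ^ (ε / 2) := by
    rw [hs2]
    conv_lhs => rw [← Real.rpow_one (n : ℝ), ← Real.rpow_mul hn0.le, one_mul,
      ← Real.rpow_add hn0]
    rw [← Real.rpow_add hn0]
    congr 1
    rw [ha]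
    ring
  have hna : 0 < (n : ℝ) ^ a := Real.rpow_pos_of_pos hn0 _
  have hE : 0 ≤ K * (n : ℝ) ^ a := by positivity
  have hld := ld n hn10 (μ ^ 2) s (K * (n : ℝ) ^ a) hμ3 hμ2 hs0 hs1 hE
    (fun j hj => (hK n hn10 j hj).1) (fun j hj => (hK n hn10 j hj).2)
  set A : ℝ := ((KT n).card : ℝ) with hA
  have hA0 : 0 ≤ A := Nat.cast_nonneg _
  -- the exponent
  have hexp : 4 * 10 ^ 17 * (n : ℝ) ^ 3 *
      Real.exp (K * (n : ℝ) ^ a + 1 - s ^ 2 * n / 10 ^ 13) ≤ 1 := by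
    have e1 : K * (n : ℝ) ^ a + 1 - s ^ 2 * n / 10 ^ 13 ≤ 1 + -(2 * (n : ℝ) ^ a) := by
      rw [hsn]
      have : (n : ℝ) ^ a * (10 ^ 13 * (K + 2)) ≤ (n : ℝ) ^ a * (n : ℝ) ^ (ε / 2) :=
        mul_le_mul_of_nonneg_left h1 hna.le
      linarith
    have e2 : 4 * 10 ^ 17 * (n : ℝ) ^ 3 * Real.exp 1 ≤ (n : ℝ) ^ 4 := by
      have h3 := Real.exp_one_lt_d9
      have h4 : 4 * 10 ^ 17 * Real.exp 1 ≤ n := by linarith
      calc 4 * 10 ^ 17 * (n : ℝ) ^ 3 * Real.exp 1 = (4 * 10 ^ 17 * Real.exp 1) * (n : ℝ) ^ 3 := by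
            ring
        _ ≤ n * (n : ℝ) ^ 3 := mul_le_mul_of_nonneg_right h4 (by positivity)
        _ = _ := by ring
    have e3 : (n : ℝ) ^ 4 ≤ Real.exp ((n : ℝ) ^ a) := by
      have : (n : ℝ) ^ 4 = Real.exp (4 * Real.log n) := by
        rw [mul_comm, Real.exp_mul, Real.exp_log hn0]
        norm_cast
      rw [this]
      exact Real.exp_le_exp.2 (by linarith)
    calc 4 * 10 ^ 17 * (n : ℝ) ^ 3 * Real.exp (K * (n : ℝ) ^ a + 1 - s ^ 2 * n / 10 ^ 13)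
        ≤ 4 * 10 ^ 17 * (n : ℝ) ^ 3 * Real.exp (1 + -(2 * (n : ℝ) ^ a)) :=
          mul_le_mul_of_nonneg_left (Real.exp_le_exp.2 e1) (by positivity)
      _ = (4 * 10 ^ 17 * (n : ℝ) ^ 3 * Real.exp 1) * Real.exp (-(2 * (n : ℝ) ^ a)) := by
          rw [Real.exp_add]; ring
      _ ≤ Real.exp ((n : ℝ) ^ a) * Real.exp (-(2 * (n : ℝ) ^ a)) :=
          mul_le_mul_of_nonneg_right (e2.trans e3) (Real.exp_pos _).le
      _ = Real.exp (-(n : ℝ) ^ a) := by rw [← Real.exp_add]; congr 1; ring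
      _ ≤ 1 := Real.exp_le_one_iff.2 (by linarith)
  set T := (KT n).filter (fun w => CONV.good n w ∧ s ≤ |(fr w : ℝ) / bu w - μ ^ 2|) with hT
  have hTc : 10 ^ 16 * (T.card : ℝ) ≤ 1 / n * A := by
    rw [one_div, inv_mul_eq_div, le_div_iff₀ hn0]
    calc 10 ^ 16 * (T.card : ℝ) * n ≤ 10 ^ 16 * (40 * (n : ℝ) ^ 2 * A *
          Real.exp (K * (n : ℝ) ^ a + 1 - s ^ 2 * n / 10 ^ 13)) * n :=
          mul_le_mul_of_nonneg_right (mul_le_mul_of_nonneg_left hld (by norm_num)) hn0.le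
      _ = (4 * 10 ^ 17 * (n : ℝ) ^ 3 *
            Real.exp (K * (n : ℝ) ^ a + 1 - s ^ 2 * n / 10 ^ 13)) * A := by ring
      _ ≤ 1 * A := mul_le_mul_of_nonneg_right hexp hA0
      _ = A := one_mul A
  have hbd : 10 ^ 16 * bd n ≤ 1 / n * A := by
    refine le_trans ?_ hb
    have hb0 := bd_nonneg n
    have hb2 := bd_nonneg (n + 2)
    nlinarith
  have hdev : ∀ w : List Dir, (X w - μ ^ 2) ^ 2 ≤ 10 ^ 16 := by
    intro w
    have h6 := X_nonneg w
    have h7 := X_le w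
    have : |X w - μ ^ 2| ≤ 10 ^ 8 := abs_le.2 ⟨by linarith, by linarith⟩
    calc (X w - μ ^ 2) ^ 2 = |X w - μ ^ 2| ^ 2 := (sq_abs _).symm
      _ ≤ (10 ^ 8) ^ 2 := pow_le_pow_left₀ (abs_nonneg _) this 2
      _ = 10 ^ 16 := by norm_num
  have hterm : ∀ w ∈ KT n, (X w - μ ^ 2) ^ 2 ≤ s ^ 2 +
      ((if CONV.good n w ∧ s ≤ |(fr w : ℝ) / bu w - μ ^ 2| then 10 ^ 16 else 0) +
        (if ¬ CONV.good n w then 10 ^ 16 else 0)) := by
    intro w hw
    by_cases hg : CONV.good n w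
    · by_cases hc : s ≤ |(fr w : ℝ) / bu w - μ ^ 2|
      · rw [if_pos ⟨hg, hc⟩, if_neg (not_not.2 hg)]
        have := hdev w
        have h8 : 0 ≤ s ^ 2 := sq_nonneg s
        linarith
      · rw [if_neg (fun h => hc h.2), if_neg (not_not.2 hg), add_zero, add_zero,
          X_good n w hn10 hw hg, ← sq_abs]
        exact pow_le_pow_left₀ (abs_nonneg _) (not_le.1 hc).le 2
    · rw [if_neg (fun h => hg h.1), if_pos hg]
      have := hdev w
      have h8 : 0 ≤ s ^ 2 := sq_nonneg s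
      linarith
  refine (sum_le_sum hterm).trans ?_
  rw [sum_add_distrib, sum_add_distrib, ← sum_filter, ← sum_filter, sum_const, sum_const,
    sum_const, nsmul_eq_mul, nsmul_eq_mul, nsmul_eq_mul, bd_card, ← hs2]
  have h9 : 1 / (n : ℝ) ≤ s ^ 2 := by
    rw [hs2, one_div, ← Real.rpow_neg_one]
    exact Real.rpow_le_rpow_of_exponent_le hn1 (by linarith)
  have h10 : 1 / n * A ≤ s ^ 2 * A := mul_le_mul_of_nonneg_right h9 hA0
  have h11 : (T.card : ℝ) * 10 ^ 16 ≤ s ^ 2 * A := by linarith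
  have h12 : bd n * 10 ^ 16 ≤ s ^ 2 * A := by linarith
  have h13 : ((KT n).card : ℝ) * s ^ 2 = s ^ 2 * A := mul_comm _ _
  rw [h13]
  linarith

end

end TH966.KO.X77
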