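import Pool.Agent.X77.SD.Ana

/-!
# The second differences of the ratios, and the law of the end point
-/

set_option autoImplicit false

namespace TH966.KO.X77

open Finset Filter Topology KN TH966.KS
open scoped Classical

noncomputable section

/-- the ratio `c_{n+2} / c_n` -/
def rr (n : ℕ) : ℝ := (c (n + 2) : ℝ) / c n

theorem rr_mul (n : ℕ) : (c (n + 2) : ℝ) = rr n * c n := by
  unfold rr
  have := (c_pos n).ne'
  field_simp

theorem rr_near (ε : ℝ) (hε : 0 < ε) : ∃ K : ℝ, 0 ≤ K ∧ ∀ᶠ n : ℕ in atTop,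
    |rr n - μ ^ 2| ≤ K * (n : ℝ) ^ (-(1 / 3 : ℝ) + ε) := by
  obtain ⟨K, hK⟩ := rates ε hε
  refine ⟨|K|, abs_nonneg _, ?_⟩
  filter_upwards [hK, eventually_ge_atTop 1] with n hn h1
  have hn1 : (1 : ℝ) ≤ n := by exact_mod_cast h1
  have e1 : (n : ℝ) ^ (-(2 / 5 : ℝ) + ε) ≤ (n : ℝ) ^ (-(1 / 3 : ℝ) + ε) :=
    Real.rpow_le_rpow_of_exponent_le hn1 (by linarith)
  have p1 : 0 ≤ (n : ℝ) ^ (-(2 / 5 : ℝ) + ε) := by positivity
  have p2 : 0 ≤ (n : ℝ) ^ (-(1 / 3 : ℝ) + ε) := by positivity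
  have q1 : K * (n : ℝ) ^ (-(1 / 3 : ℝ) + ε) ≤ |K| * (n : ℝ) ^ (-(1 / 3 : ℝ) + ε) :=
    mul_le_mul_of_nonneg_right (le_abs_self K) p2
  have q2 : K * (n : ℝ) ^ (-(2 / 5 : ℝ) + ε) ≤ |K| * (n : ℝ) ^ (-(1 / 3 : ℝ) + ε) :=
    (mul_le_mul_of_nonneg_right (le_abs_self K) p1).trans
      (mul_le_mul_of_nonneg_left e1 (abs_nonneg K))
  unfold rr
  rw [abs_le]
  constructor
  · linarith [hn.1]
  · linarith [hn.2]

theorem rr_one : ∀ᶠ n : ℕ in atTop, 1 ≤ rr n ∧ rr n ≤ 26 := by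
  obtain ⟨K, hK0, hK⟩ := rr_near (1 / 12) (by norm_num)
  have t1 : Tendsto (fun n : ℕ => K * (n : ℝ) ^ (-(1 / 3 : ℝ) + 1 / 12)) atTop (𝓝 0) := by
    have e : (-(1 / 3 : ℝ) + 1 / 12) = -(1 / 4) := by norm_num
    rw [e]
    have := ((tendsto_rpow_neg_atTop (show (0 : ℝ) < 1 / 4 by norm_num)).comp
      tendsto_natCast_atTop_atTop).const_mul K
    rw [mul_zero] at this
    exact this
  filter_upwards [hK, t1.eventually_le_const (show (0 : ℝ) < 1 by norm_num)] with n h1 h2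
  have h3 := abs_le.1 (h1.trans h2)
  have h4 := mu_le
  have h5 := mu_ge
  constructor <;> nlinarith

/-- algebra -/
theorem alg {A0 A1 A2 S1 S2 T1 h r r' : ℝ} (hA1 : A1 = r * A0) (hA2 : A2 = r' * (r * A0))
    (h1 : |A1 - S1| ≤ h * A0) (h2 : |A2 - T1| ≤ h * A1) (h3 : |T1 - S2| ≤ h * A0) (x : ℝ)
    (hx : 0 ≤ x) :
    |(S2 - 2 * x * S1 + x ^ 2 * A0) - ((x - r) ^ 2 + r * (r' - r)) * A0| ≤
      h * (1 + r + 2 * x) * A0 := by
  have g1 := abs_le.1 h1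
  have g2 := abs_le.1 h2
  have g3 := abs_le.1 h3
  rw [hA1] at g1 g2
  rw [hA2] at g2
  have k1 : 2 * x * S1 ≤ 2 * x * (r * A0 + h * A0) := by
    refine mul_le_mul_of_nonneg_left ?_ (by linarith)
    linarith
  have k2 : 2 * x * (r * A0 - h * A0) ≤ 2 * x * S1 := by
    refine mul_le_mul_of_nonneg_left ?_ (by linarith)
    linarith
  rw [abs_le]
  constructor <;> nlinarith

/-- the mean of the square of `X - x` -/
theorem second : ∀ᶠ n : ℕ in atTop, ∀ x : ℝ, 0 ≤ x → x ≤ 30 →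
    |∑ w ∈ KT n, (X w - x) ^ 2 - ((x - rr n) ^ 2 + rr n * (rr (n + 2) - rr n)) * (KT n).card| ≤
      10 ^ 28 / n * (KT n).card := by
  have ht : Tendsto (fun n : ℕ => n + 2) atTop atTop := tendsto_add_atTop_nat 2
  filter_upwards [tr2, ht.eventually tr2, rr_one, eventually_ge_atTop (10 ^ 10)]
    with n h1 h2 h3 hn x hx0 hx
  have hn0 : (0 : ℝ) < n := by exact_mod_cast (show 0 < n by omega)
  have hc := c_pos n
  have A0 : ((KT n).card : ℝ) = c n := card_KT (by omega)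
  have A1 : ((KT (n + 2)).card : ℝ) = c (n + 2) := card_KT (by omega)
  have A2 : ((KT (n + 2 + 2)).card : ℝ) = c (n + 2 + 2) := card_KT (by omega)
  have hh : (0 : ℝ) < 10 ^ 26 / n := by positivity
  -- first step
  have e1 : |(c (n + 2) : ℝ) - ∑ w ∈ KT n, X w| ≤ 10 ^ 26 / n * c n := by
    have := h1 (fun _ => 1) 1 0 (by norm_num) le_rfl (fun w _ => by simp) (fun w _ => by simp)
      (fun w _ _ i d _ => by simp)
    simp only [sum_const, nsmul_eq_mul, mul_one, mul_zero, add_zero] at this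
    rw [A1, A0] at this
    refine this.trans (mul_le_mul_of_nonneg_right ?_ hc.le)
    exact div_le_div_of_nonneg_right (by norm_num) hn0.le
  have e2 : |(c (n + 2 + 2) : ℝ) - ∑ w ∈ KT (n + 2), X w| ≤ 10 ^ 26 / n * c (n + 2) := by
    have := h2 (fun _ => 1) 1 0 (by norm_num) le_rfl (fun w _ => by simp) (fun w _ => by simp)
      (fun w _ _ i d _ => by simp)
    simp only [sum_const, nsmul_eq_mul, mul_one, mul_zero, add_zero] at this
    rw [A2, A1] at this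
    refine this.trans (mul_le_mul_of_nonneg_right ?_ (Nat.cast_nonneg _))
    have hn2 : (n : ℝ) ≤ ((n + 2 : ℕ) : ℝ) := by exact_mod_cast (by omega : n ≤ n + 2)
    calc (2 * 10 ^ 17 : ℝ) / ((n + 2 : ℕ) : ℝ) ≤ 2 * 10 ^ 17 / n :=
          div_le_div_of_nonneg_left (by norm_num) hn0 hn2
      _ ≤ _ := div_le_div_of_nonneg_right (by norm_num) hn0.le
  have e3 : |∑ w ∈ KT (n + 2), X w - ∑ w ∈ KT n, X w ^ 2| ≤ 10 ^ 26 / n * c n := by
    have := h1 X (10 ^ 8) (10 ^ 16 / n) (by norm_num) (by positivity)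
      (fun w _ => by rw [abs_of_nonneg (X_nonneg w)]; exact X_le w)
      (fun w _ => by rw [abs_of_nonneg (X_nonneg w)]; exact X_le w)
      (fun w hw hg i d hs => X_lip n hn w hw hg i d hs)
    have e : ∑ w ∈ KT n, X w ^ 2 = ∑ w ∈ KT n, X w * X w :=
      sum_congr rfl fun w _ => by ring
    rw [e]
    rw [A0] at this
    refine this.trans (mul_le_mul_of_nonneg_right ?_ hc.le)
    have e' : (2 * 10 ^ 17 * 10 ^ 8 / n + 10 ^ 8 * (10 ^ 16 / n) : ℝ) =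
        (2 * 10 ^ 17 * 10 ^ 8 + 10 ^ 8 * 10 ^ 16) / n := by ring
    rw [e']
    exact div_le_div_of_nonneg_right (by norm_num) hn0.le
  have k := alg (A0 := (c n : ℝ)) (A1 := (c (n + 2) : ℝ)) (A2 := (c (n + 2 + 2) : ℝ))
    (r := rr n) (r' := rr (n + 2)) (rr_mul n) (by rw [← rr_mul n]; exact rr_mul (n + 2)) e1 e2 e3
    x hx0
  have e5 : ∑ w ∈ KT n, (X w - x) ^ 2 = ∑ w ∈ KT n, X w ^ 2 - 2 * x * ∑ w ∈ KT n, X w +
      x ^ 2 * c n := by
    rw [← A0, mul_sum, mul_comm (x ^ 2), ← nsmul_eq_mul, ← sum_const, ← sum_sub_distrib,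
      ← sum_add_distrib]
    exact sum_congr rfl fun w _ => by ring
  rw [e5, A0]
  refine k.trans (mul_le_mul_of_nonneg_right ?_ hc.le)
  have e6 : (10 : ℝ) ^ 28 / n = 10 ^ 26 / n * 100 := by ring
  rw [e6]
  exact mul_le_mul_of_nonneg_left (by linarith [h3.2]) hh.le

/-- **the second differences of the ratios** -/
theorem diff2 (ε : ℝ) (hε : 0 < ε) (hε1 : ε ≤ 1 / 3) : ∀ᶠ n : ℕ in atTop,
    -(10 ^ 28 / n) ≤ rr (n + 2) - rr n ∧
      rr (n + 2) - rr n ≤ 10 ^ 29 * (n : ℝ) ^ (-(2 / 3 : ℝ) + ε) := by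
  filter_upwards [second, rr_one, var_small ε hε hε1, eventually_ge_atTop 4]
    with n h1 h2 h3 hn
  have hn0 : (0 : ℝ) < n := by exact_mod_cast (show 0 < n by omega)
  have hn1 : (1 : ℝ) ≤ n := by exact_mod_cast (show 1 ≤ n by omega)
  have A0 : ((KT n).card : ℝ) = c n := card_KT hn
  have hc := c_pos n
  rw [← A0] at hc
  have hh : (0 : ℝ) < 10 ^ 28 / n := by positivity
  constructor
  · have g1 := (abs_le.1 (h1 (rr n) (by linarith) (by linarith))).2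
    have g2 : 0 ≤ ∑ w ∈ KT n, (X w - rr n) ^ 2 := sum_nonneg fun w _ => sq_nonneg _
    rw [sub_self] at g1
    have g3 : -(10 ^ 28 / n) * ((KT n).card : ℝ) ≤ rr n * (rr (n + 2) - rr n) * (KT n).card := by
      have e : ((0 : ℝ) ^ 2 + rr n * (rr (n + 2) - rr n)) * ((KT n).card : ℝ) =
        rr n * (rr (n + 2) - rr n) * (KT n).card := by ring
      rw [e] at g1
      linarith
    have g4 := le_of_mul_le_mul_right g3 hc
    rcases le_or_gt 0 (rr (n + 2) - rr n) with h | h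
    · linarith
    · nlinarith
  · have hμ0 : (0 : ℝ) ≤ μ ^ 2 := sq_nonneg _
    have hμ : μ ^ 2 ≤ 30 := by nlinarith [mu_le, mu_one]
    have g1 := (abs_le.1 (h1 (μ ^ 2) hμ0 hμ)).1
    have g2 : ((μ ^ 2 - rr n) ^ 2 + rr n * (rr (n + 2) - rr n)) * ((KT n).card : ℝ) ≤
        (3 * (n : ℝ) ^ (-(2 / 3 : ℝ) + ε) + 10 ^ 28 / n) * (KT n).card := by
      rw [add_mul (3 * (n : ℝ) ^ (-(2 / 3 : ℝ) + ε))]
      linarith
    have g3 := le_of_mul_le_mul_right g2 hc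
    have g4 : rr n * (rr (n + 2) - rr n) ≤ 3 * (n : ℝ) ^ (-(2 / 3 : ℝ) + ε) + 10 ^ 28 / n := by
      nlinarith [sq_nonneg (μ ^ 2 - rr n)]
    have h9 : 1 / (n : ℝ) ≤ (n : ℝ) ^ (-(2 / 3 : ℝ) + ε) := by
      rw [one_div, ← Real.rpow_neg_one]
      exact Real.rpow_le_rpow_of_exponent_le hn1 (by linarith)
    have h10 : (10 : ℝ) ^ 28 / n = 10 ^ 28 * (1 / n) := by ring
    have h11 : 0 ≤ (n : ℝ) ^ (-(2 / 3 : ℝ) + ε) := by positivity
    have g5 : rr n * (rr (n + 2) - rr n) ≤ 10 ^ 29 * (n : ℝ) ^ (-(2 / 3 : ℝ) + ε) := by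
      rw [h10] at g4
      linarith
    rcases le_or_gt 0 (rr (n + 2) - rr n) with h | h
    · nlinarith
    · have : 0 ≤ 10 ^ 29 * (n : ℝ) ^ (-(2 / 3 : ℝ) + ε) := by positivity
      linarith

end

end TH966.KO.X77
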