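import Pool.Agent.X77.SD.Tr

/-!
# Large deviations of the ratio of free plaquettes and bumps
-/

set_option autoImplicit false

namespace TH966.KO.X77

open Finset Filter Topology KN
open scoped Classical

noncomputable section

/-- the words with given numbers of free plaquettes and bumps -/
def cell (n f b : ℕ) : Finset (List Dir) := (KT n).filter (fun w => fr w = f ∧ bu w = b)

theorem up_step {x f b j u : ℝ} (hx : 0 ≤ x) (_hb0 : 0 < b) (hf0 : 0 < f) (hxb : x * b ≤ f)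
    (hu0 : 0 ≤ u) (hu : u ≤ 1 / 1000) (hbj : 5 * j ≤ 5 * u * b) (hfj : 28 * j ≤ 28 * u * f) :
    x * (b + 5 * j) ≤ (f - 28 * j) * Real.exp (100 * u) := by
  have h1 : 1 + 5 * u ≤ (1 - 28 * u) * (1 + 100 * u) := by nlinarith
  have h2 : 1 + 100 * u ≤ Real.exp (100 * u) := by linarith [Real.add_one_le_exp (100 * u)]
  have h3 : f * (1 - 28 * u) ≤ f - 28 * j := by linarith
  have h4 : 0 ≤ f * (1 - 28 * u) := mul_nonneg hf0.le (by linarith)
  calc x * (b + 5 * j) ≤ x * (b + 5 * u * b) := mul_le_mul_of_nonneg_left (by linarith) hx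
    _ = (x * b) * (1 + 5 * u) := by ring
    _ ≤ f * (1 + 5 * u) := mul_le_mul_of_nonneg_right hxb (by linarith)
    _ ≤ f * ((1 - 28 * u) * (1 + 100 * u)) := mul_le_mul_of_nonneg_left h1 hf0.le
    _ = f * (1 - 28 * u) * (1 + 100 * u) := by ring
    _ ≤ (f - 28 * j) * Real.exp (100 * u) :=
        mul_le_mul h3 h2 (by linarith) (by linarith)

theorem down_step {x f b j u : ℝ} (hx : 0 ≤ x) (hb0 : 0 < b) (_hf0 : 0 < f) (hxb : f ≤ x * b)
    (hu0 : 0 ≤ u) (hu : u ≤ 1 / 1000) (hbj : 5 * j ≤ 5 * u * b) (hfj : 28 * j ≤ 28 * u * f) :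
    f + 28 * j ≤ x * (b - 5 * j) * Real.exp (100 * u) := by
  have h1 : 1 + 28 * u ≤ (1 - 5 * u) * (1 + 100 * u) := by nlinarith
  have h2 : 1 + 100 * u ≤ Real.exp (100 * u) := by linarith [Real.add_one_le_exp (100 * u)]
  have h3 : b * (1 - 5 * u) ≤ b - 5 * j := by linarith
  have h4 : 0 ≤ b * (1 - 5 * u) := mul_nonneg hb0.le (by linarith)
  calc f + 28 * j ≤ f * (1 + 28 * u) := by linarith
    _ ≤ (x * b) * (1 + 28 * u) := mul_le_mul_of_nonneg_right hxb (by linarith)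
    _ ≤ (x * b) * ((1 - 5 * u) * (1 + 100 * u)) :=
        mul_le_mul_of_nonneg_left h1 (mul_nonneg hx hb0.le)
    _ = x * (b * (1 - 5 * u)) * (1 + 100 * u) := by ring
    _ ≤ x * (b - 5 * j) * Real.exp (100 * u) := by
        refine mul_le_mul (mul_le_mul_of_nonneg_left h3 hx) h2 (by linarith) ?_
        exact mul_nonneg hx (by linarith)

/-- insertions -/
theorem cell_up (n j f b : ℕ) (hn : 10 ^ 10 ≤ n) (hj : 10 ^ 10 * j ≤ n) (x : ℝ) (hx : 0 ≤ x)
    (hf : n < 10 ^ 7 * f) (hb : n < 10 ^ 7 * b) (hfb : x ≤ (f : ℝ) / b) :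
    ((cell n f b).card : ℝ) * x ^ j ≤
      (KT (n + 2 * j)).card * Real.exp (10 ^ 9 * (j : ℝ) ^ 2 / n) := by
  have hnR : (10 : ℝ) ^ 10 ≤ n := by exact_mod_cast hn
  have hn0 : (0 : ℝ) < n := by linarith
  have hfR : (n : ℝ) < 10 ^ 7 * f := by exact_mod_cast hf
  have hbR : (n : ℝ) < 10 ^ 7 * b := by exact_mod_cast hb
  have hjR : (10 : ℝ) ^ 10 * j ≤ n := by exact_mod_cast hj
  have hf0 : (0 : ℝ) < f := by linarith
  have hb0 : (0 : ℝ) < b := by linarith
  have hj0 : (0 : ℝ) ≤ j := Nat.cast_nonneg j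
  obtain ⟨u, hu⟩ : ∃ u : ℝ, u = 10 ^ 7 * j / n := ⟨_, rfl⟩
  have hu0 : 0 ≤ u := by rw [hu]; positivity
  have hu1 : u ≤ 1 / 1000 := by
    rw [hu, div_le_iff₀ hn0]; linarith
  have hun : 10 ^ 7 * (j : ℝ) = u * n := by rw [hu]; field_simp
  have hbj : 5 * (j : ℝ) ≤ 5 * u * b := by
    have : u * n ≤ u * (10 ^ 7 * b) := mul_le_mul_of_nonneg_left hbR.le hu0
    linarith
  have hfj : 28 * (j : ℝ) ≤ 28 * u * f := by
    have : u * n ≤ u * (10 ^ 7 * f) := mul_le_mul_of_nonneg_left hfR.le hu0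
    linarith
  have hxb : x * b ≤ f := by rwa [le_div_iff₀ hb0] at hfb
  have h1 := up_step hx hb0 hf0 hxb hu0 hu1 hbj hfj
  have h28 : 28 * j ≤ f := by omega
  have h2 := o_up (fun _ => True) invT n b f j (cell n f b) (by omega) h28
    (filter_subset _ _) (fun w hw => by
      obtain ⟨h3, h4⟩ := (mem_filter.1 hw).2
      rw [h3, h4]
      exact ⟨le_rfl, le_rfl⟩)
  have h3 : (a (fun _ => True) (n + 2 * j) : ℝ) = (KT (n + 2 * j)).card := rfl
  rw [h3] at h2
  have hp : (0 : ℝ) < ((b : ℝ) + 5 * j) ^ j := by positivity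
  have hA : (0 : ℝ) ≤ (cell n f b).card := Nat.cast_nonneg _
  have h4 : (x * ((b : ℝ) + 5 * j)) ^ j ≤ (((f : ℝ) - 28 * j) * Real.exp (100 * u)) ^ j :=
    pow_le_pow_left₀ (by positivity) h1 j
  have h5 : Real.exp (100 * u) ^ j = Real.exp (10 ^ 9 * (j : ℝ) ^ 2 / n) := by
    rw [← Real.exp_nat_mul]
    congr 1
    rw [hu]
    ring
  rw [mul_pow, mul_pow, h5] at h4
  refine le_of_mul_le_mul_right ?_ hp
  calc ((cell n f b).card : ℝ) * x ^ j * ((b : ℝ) + 5 * j) ^ j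
      = (cell n f b).card * (x ^ j * ((b : ℝ) + 5 * j) ^ j) := by ring
    _ ≤ (cell n f b).card * (((f : ℝ) - 28 * j) ^ j * Real.exp (10 ^ 9 * (j : ℝ) ^ 2 / n)) :=
        mul_le_mul_of_nonneg_left h4 hA
    _ = ((cell n f b).card * ((f : ℝ) - 28 * j) ^ j) * Real.exp (10 ^ 9 * (j : ℝ) ^ 2 / n) := by
        ring
    _ ≤ ((KT (n + 2 * j)).card * ((b : ℝ) + 5 * j) ^ j) *
          Real.exp (10 ^ 9 * (j : ℝ) ^ 2 / n) :=
        mul_le_mul_of_nonneg_right h2 (Real.exp_pos _).le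
    _ = _ := by ring

/-- removals -/
theorem cell_down (n j f b : ℕ) (hn : 10 ^ 10 ≤ n) (hj : 10 ^ 10 * j ≤ n) (x : ℝ) (hx : 0 ≤ x)
    (hf : n < 10 ^ 7 * f) (hb : n < 10 ^ 7 * b) (hfb : (f : ℝ) / b ≤ x) :
    ((cell n f b).card : ℝ) ≤
      (KT (n - 2 * j)).card * x ^ j * Real.exp (10 ^ 9 * (j : ℝ) ^ 2 / n) := by
  have hnR : (10 : ℝ) ^ 10 ≤ n := by exact_mod_cast hn
  have hn0 : (0 : ℝ) < n := by linarith
  have hfR : (n : ℝ) < 10 ^ 7 * f := by exact_mod_cast hf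
  have hbR : (n : ℝ) < 10 ^ 7 * b := by exact_mod_cast hb
  have hjR : (10 : ℝ) ^ 10 * j ≤ n := by exact_mod_cast hj
  have hf0 : (0 : ℝ) < f := by linarith
  have hb0 : (0 : ℝ) < b := by linarith
  have hj0 : (0 : ℝ) ≤ j := Nat.cast_nonneg j
  obtain ⟨u, hu⟩ : ∃ u : ℝ, u = 10 ^ 7 * j / n := ⟨_, rfl⟩
  have hu0 : 0 ≤ u := by rw [hu]; positivity
  have hu1 : u ≤ 1 / 1000 := by
    rw [hu, div_le_iff₀ hn0]; linarith
  have hun : 10 ^ 7 * (j : ℝ) = u * n := by rw [hu]; field_simp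
  have hbj : 5 * (j : ℝ) ≤ 5 * u * b := by
    have : u * n ≤ u * (10 ^ 7 * b) := mul_le_mul_of_nonneg_left hbR.le hu0
    linarith
  have hfj : 28 * (j : ℝ) ≤ 28 * u * f := by
    have : u * n ≤ u * (10 ^ 7 * f) := mul_le_mul_of_nonneg_left hfR.le hu0
    linarith
  have hxb : (f : ℝ) ≤ x * b := by rwa [div_le_iff₀ hb0] at hfb
  have h1 := down_step hx hb0 hf0 hxb hu0 hu1 hbj hfj
  have h5' : 5 * j ≤ b := by omega
  have h2 := o_down (fun _ => True) invT n b f j (cell n f b) (by omega) h5'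
    (filter_subset _ _) (fun w hw => by
      obtain ⟨h3, h4⟩ := (mem_filter.1 hw).2
      rw [h3, h4]
      exact ⟨le_rfl, le_rfl⟩)
  have h3 : (a (fun _ => True) (n - 2 * j) : ℝ) = (KT (n - 2 * j)).card := rfl
  rw [h3] at h2
  have hb5 : (0 : ℝ) < (b : ℝ) - 5 * j := by
    have : 5 * u * b ≤ 5 * (1 / 1000) * b :=
      mul_le_mul_of_nonneg_right (by linarith) hb0.le
    linarith
  have hp : (0 : ℝ) < ((b : ℝ) - 5 * j) ^ j := pow_pos hb5 j
  have h4 : ((f : ℝ) + 28 * j) ^ j ≤ (x * ((b : ℝ) - 5 * j) * Real.exp (100 * u)) ^ j :=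
    pow_le_pow_left₀ (by positivity) h1 j
  have h5 : Real.exp (100 * u) ^ j = Real.exp (10 ^ 9 * (j : ℝ) ^ 2 / n) := by
    rw [← Real.exp_nat_mul]
    congr 1
    rw [hu]
    ring
  rw [mul_pow, mul_pow, h5] at h4
  refine le_of_mul_le_mul_right ?_ hp
  calc ((cell n f b).card : ℝ) * ((b : ℝ) - 5 * j) ^ j
      ≤ (KT (n - 2 * j)).card * ((f : ℝ) + 28 * j) ^ j := h2
    _ ≤ (KT (n - 2 * j)).card * (x ^ j * ((b : ℝ) - 5 * j) ^ j *
          Real.exp (10 ^ 9 * (j : ℝ) ^ 2 / n)) :=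
        mul_le_mul_of_nonneg_left h4 (Nat.cast_nonneg _)
    _ = _ := by ring

/-- summation over the cells -/
theorem sum_cells (n : ℕ) (hn : 10 ^ 10 ≤ n) (P : ℕ → ℕ → Prop) (T : ℝ) (hT : 0 ≤ T)
    (h : ∀ f b : ℕ, n < 10 ^ 7 * f → n < 10 ^ 7 * b → P f b → ((cell n f b).card : ℝ) ≤ T) :
    (((KT n).filter (fun w => CONV.good n w ∧ P (fr w) (bu w))).card : ℝ) ≤
      20 * (n : ℝ) ^ 2 * T := by
  have hnR : (10 : ℝ) ^ 10 ≤ n := by exact_mod_cast hn
  set S := (KT n).filter (fun w => CONV.good n w ∧ P (fr w) (bu w)) with hS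
  have hmap : ∀ w ∈ S, (fr w, bu w) ∈ range (6 * n + 1) ×ˢ range (n + 1) := by
    intro w hw
    have h1 := (mem_KT.1 (mem_filter.1 hw).1).1
    have h2 := CONV.fr_le w
    have h3 : bu w ≤ w.length := by
      unfold bu bumps
      exact (card_filter_le _ _).trans (by rw [card_range])
    rw [mem_product, mem_range, mem_range]
    rw [h1] at h2 h3
    constructor <;> simp only <;> omega
  rw [card_eq_sum_card_fiberwise hmap]
  push_cast
  have h1 : ∀ q ∈ range (6 * n + 1) ×ˢ range (n + 1),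
      ((S.filter (fun w => (fr w, bu w) = q)).card : ℝ) ≤ T := by
    rintro ⟨f, b⟩ _
    rcases (S.filter (fun w => (fr w, bu w) = (f, b))).eq_empty_or_nonempty with he | ⟨w, hw⟩
    · rw [he, card_empty, Nat.cast_zero]; exact hT
    · rw [mem_filter] at hw
      obtain ⟨hw1, hw2⟩ := hw
      rw [Prod.mk.injEq] at hw2
      obtain ⟨h3, h4⟩ := (mem_filter.1 hw1).2
      rw [hw2.1, hw2.2] at h4
      have h5 : n < 10 ^ 7 * f := by rw [← hw2.1]; exact h3.1
      have h6 : n < 10 ^ 7 * b := by rw [← hw2.2]; exact h3.2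
      refine le_trans ?_ (h f b h5 h6 h4)
      have : (S.filter (fun w => (fr w, bu w) = (f, b))).card ≤ (cell n f b).card := by
        apply card_le_card
        intro v hv
        rw [mem_filter] at hv
        unfold cell
        rw [mem_filter]
        refine ⟨(mem_filter.1 hv.1).1, ?_⟩
        have h7 := hv.2
        rw [Prod.mk.injEq] at h7
        exact h7
      exact_mod_cast this
  refine (sum_le_sum h1).trans ?_
  rw [sum_const, nsmul_eq_mul, card_product, card_range, card_range]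
  refine mul_le_mul_of_nonneg_right ?_ hT
  push_cast
  nlinarith

/-- **Large deviations.** -/
theorem ld (n : ℕ) (hn : 10 ^ 10 ≤ n) (g s E : ℝ) (hg1 : 2 ≤ g) (hg : g ≤ 25) (hs0 : 0 < s)
    (hs1 : s ≤ 1) (_hE : 0 ≤ E)
    (hup : ∀ j : ℕ, 10 ^ 10 * j ≤ n →
      ((KT (n + 2 * j)).card : ℝ) ≤ (KT n).card * g ^ j * Real.exp E)
    (hdown : ∀ j : ℕ, 10 ^ 10 * j ≤ n →
      ((KT (n - 2 * j)).card : ℝ) * g ^ j ≤ (KT n).card * Real.exp E) :
    (((KT n).filter (fun w => CONV.good n w ∧ s ≤ |(fr w : ℝ) / bu w - g|)).card : ℝ) ≤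
      40 * (n : ℝ) ^ 2 * (KT n).card * Real.exp (E + 1 - s ^ 2 * n / 10 ^ 13) := by
  have hnR : (10 : ℝ) ^ 10 ≤ n := by exact_mod_cast hn
  have hn0 : (0 : ℝ) < n := by linarith
  have hg0 : 0 < g := by linarith
  set j : ℕ := ⌊s * n / 10 ^ 11⌋₊ with hj
  have hj1 : (j : ℝ) ≤ s * n / 10 ^ 11 := Nat.floor_le (by positivity)
  have hj2 : s * n / 10 ^ 11 < j + 1 := Nat.lt_floor_add_one _
  have hj0 : (0 : ℝ) ≤ j := Nat.cast_nonneg j
  have hjn : 10 ^ 10 * j ≤ n := by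
    have : (10 : ℝ) ^ 10 * j ≤ n := by
      have h1 : s * n ≤ 1 * n := mul_le_mul_of_nonneg_right hs1 hn0.le
      rw [le_div_iff₀ (by norm_num)] at hj1
      linarith
    exact_mod_cast this
  -- the exponent
  have hexp : 10 ^ 9 * (j : ℝ) ^ 2 / n - j * s / 50 ≤ 1 - s ^ 2 * n / 10 ^ 13 := by
    have h1 : 10 ^ 9 * (j : ℝ) ^ 2 / n ≤ j * s / 100 := by
      rw [div_le_iff₀ hn0]
      have h2 : (j : ℝ) * j ≤ j * (s * n / 10 ^ 11) := mul_le_mul_of_nonneg_left hj1 hj0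
      have h3 : (j : ℝ) ^ 2 = j * j := by ring
      rw [h3]
      linarith
    have h4 : (s * n / 10 ^ 11 - 1) * s ≤ j * s := mul_le_mul_of_nonneg_right (by linarith) hs0.le
    have h5 : (s * n / 10 ^ 11 - 1) * s = s ^ 2 * n / 10 ^ 11 - s := by ring
    rw [h5] at h4
    linarith
  have key : ∀ R : ℝ, 0 ≤ R → R * Real.exp E * Real.exp (10 ^ 9 * (j : ℝ) ^ 2 / n) *
      Real.exp (-(j * s / 50)) ≤ R * Real.exp (E + 1 - s ^ 2 * n / 10 ^ 13) := by
    intro R hR
    rw [mul_assoc, mul_assoc, ← Real.exp_add, ← Real.exp_add]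
    refine mul_le_mul_of_nonneg_left (Real.exp_le_exp.2 ?_) hR
    linarith
  set T : ℝ := (KT n).card * Real.exp (E + 1 - s ^ 2 * n / 10 ^ 13) with hT
  have hT0 : 0 ≤ T := by positivity
  have hsg : s / 25 ≤ s / g := div_le_div_of_nonneg_left hs0.le hg0 hg
  have hsg1 : s / g ≤ 1 := by rw [div_le_one hg0]; linarith
  have hsg0 : 0 < s / g := by positivity
  -- the upper tail
  have hU : ∀ f b : ℕ, n < 10 ^ 7 * f → n < 10 ^ 7 * b → g + s ≤ (f : ℝ) / b →
      ((cell n f b).card : ℝ) ≤ T := by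
    intro f b hf hb hfb
    have h1 := cell_up n j f b hn hjn (g + s) (by linarith) hf hb hfb
    have h2 : ((cell n f b).card : ℝ) * (g + s) ^ j ≤
        (KT n).card * g ^ j * Real.exp E * Real.exp (10 ^ 9 * (j : ℝ) ^ 2 / n) :=
      h1.trans (mul_le_mul_of_nonneg_right (hup j hjn) (Real.exp_pos _).le)
    have h3 : g ≤ (g + s) * Real.exp (-(s / 50)) := by
      have h4 : (1 + s / g)⁻¹ ≤ Real.exp (-(s / 50)) := by
        have h5 : (1 + s / g)⁻¹ = 1 - (s / g) / (1 + s / g) := by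
          have : 1 + s / g ≠ 0 := by linarith
          field_simp
          ring
        have h6 : s / 50 ≤ (s / g) / (1 + s / g) := by
          rw [le_div_iff₀ (by linarith)]
          nlinarith
        have h7 := Real.add_one_le_exp (-(s / 50))
        rw [h5]
        linarith
      have h8 : g = (g + s) * (1 + s / g)⁻¹ := by
        have : 1 + s / g ≠ 0 := by linarith
        have h9 : g + s ≠ 0 := by linarith
        field_simp
      calc g = (g + s) * (1 + s / g)⁻¹ := h8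
        _ ≤ _ := mul_le_mul_of_nonneg_left h4 (by linarith)
    have h4 : g ^ j ≤ (g + s) ^ j * Real.exp (-(j * s / 50)) := by
      have h5 := pow_le_pow_left₀ hg0.le h3 j
      rw [mul_pow, ← Real.exp_nat_mul] at h5
      have e : (j : ℝ) * -(s / 50) = -(j * s / 50) := by ring
      rwa [e] at h5
    have hp : 0 < (g + s) ^ j := pow_pos (by linarith) j
    refine le_of_mul_le_mul_right ?_ hp
    calc ((cell n f b).card : ℝ) * (g + s) ^ j
        ≤ (KT n).card * g ^ j * Real.exp E * Real.exp (10 ^ 9 * (j : ℝ) ^ 2 / n) := h2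
      _ ≤ (KT n).card * ((g + s) ^ j * Real.exp (-(j * s / 50))) * Real.exp E *
            Real.exp (10 ^ 9 * (j : ℝ) ^ 2 / n) := by gcongr
      _ = ((KT n).card * Real.exp E * Real.exp (10 ^ 9 * (j : ℝ) ^ 2 / n) *
            Real.exp (-(j * s / 50))) * (g + s) ^ j := by ring
      _ ≤ T * (g + s) ^ j :=
          mul_le_mul_of_nonneg_right (key _ (Nat.cast_nonneg _)) hp.le
  -- the lower tail
  have hD : ∀ f b : ℕ, n < 10 ^ 7 * f → n < 10 ^ 7 * b → (f : ℝ) / b ≤ g - s →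
      ((cell n f b).card : ℝ) ≤ T := by
    intro f b hf hb hfb
    have h1 := cell_down n j f b hn hjn (g - s) (by linarith) hf hb hfb
    have h3 : g - s ≤ g * Real.exp (-(s / 50)) := by
      have h7 := Real.add_one_le_exp (-(s / g))
      have h8 : g - s = g * (-(s / g) + 1) := by field_simp; ring
      rw [h8]
      refine mul_le_mul_of_nonneg_left (h7.trans (Real.exp_le_exp.2 ?_)) hg0.le
      linarith
    have h4 : (g - s) ^ j ≤ g ^ j * Real.exp (-(j * s / 50)) := by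
      have h5 := pow_le_pow_left₀ (by linarith) h3 j
      rw [mul_pow, ← Real.exp_nat_mul] at h5
      have e : (j : ℝ) * -(s / 50) = -(j * s / 50) := by ring
      rwa [e] at h5
    calc ((cell n f b).card : ℝ) ≤
          (KT (n - 2 * j)).card * (g - s) ^ j * Real.exp (10 ^ 9 * (j : ℝ) ^ 2 / n) := h1
      _ ≤ (KT (n - 2 * j)).card * (g ^ j * Real.exp (-(j * s / 50))) *
            Real.exp (10 ^ 9 * (j : ℝ) ^ 2 / n) := by gcongr
      _ = ((KT (n - 2 * j)).card * g ^ j) * Real.exp (-(j * s / 50)) *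
            Real.exp (10 ^ 9 * (j : ℝ) ^ 2 / n) := by ring
      _ ≤ ((KT n).card * Real.exp E) * Real.exp (-(j * s / 50)) *
            Real.exp (10 ^ 9 * (j : ℝ) ^ 2 / n) :=
          mul_le_mul_of_nonneg_right (mul_le_mul_of_nonneg_right (hdown j hjn)
            (Real.exp_pos _).le) (Real.exp_pos _).le
      _ = (KT n).card * Real.exp E * Real.exp (10 ^ 9 * (j : ℝ) ^ 2 / n) *
            Real.exp (-(j * s / 50)) := by ring
      _ ≤ T := key _ (Nat.cast_nonneg _)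
  have hall := sum_cells n hn (fun f b => s ≤ |(f : ℝ) / b - g|) T hT0 (by
    intro f b hf hb hP
    rcases le_abs.1 hP with h | h
    · exact hU f b hf hb (by linarith)
    · exact hD f b hf hb (by linarith))
  refine hall.trans ?_
  rw [hT]
  have : 0 ≤ (n : ℝ) ^ 2 * ((KT n).card * Real.exp (E + 1 - s ^ 2 * n / 10 ^ 13)) := by positivity
  linarith

end

end TH966.KO.X77
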