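import Pool.Agent.X77.SD.Fin

/-!
# The law of the end point at neighbouring lengths
-/

set_option autoImplicit false

namespace TH966.KO.X77

open Finset Filter Topology KN TH966.KS BR
open scoped Classical

noncomputable section

/-- algebra -/
theorem law_alg {A0 A1 G1 G0 SX SXG Q V h r d δ : ℝ} (hA0 : 0 < A0) (hA1 : A1 = r * A0)
    (hr1 : 1 ≤ r) (hr : r ≤ 26) (hG0 : 0 ≤ G0) (hG0' : G0 ≤ A0)
    (h1 : |G1 - SXG| ≤ h * A0) (h2 : |A1 - SX| ≤ h * A0) (hh : h ≤ 1) (hh0 : 0 ≤ h)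
    (hQ : Q = SXG - G0 / A0 * SX) (hQ2 : Q ^ 2 ≤ V * A0) (hV : V ≤ (r * d + δ) * A0)
    (hd : -δ ≤ d) (hδ0 : 0 ≤ δ) :
    (G1 / A1 - G0 / A0) ^ 2 ≤ 52 * d + 54 * δ + 8 * h := by
  obtain ⟨p, hp⟩ : ∃ p : ℝ, p = G0 / A0 := ⟨_, rfl⟩
  have hp0 : 0 ≤ p := by rw [hp]; positivity
  have hp1 : p ≤ 1 := by rw [hp, div_le_one hA0]; exact hG0'
  rw [← hp] at hQ ⊢
  have hA1p : 0 < A1 := by rw [hA1]; positivity
  obtain ⟨q, hq⟩ : ∃ q : ℝ, q = |Q| / A0 := ⟨_, rfl⟩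
  have hq0 : 0 ≤ q := by rw [hq]; positivity
  have hq2 : q ^ 2 ≤ r * d + δ := by
    rw [hq, div_pow, sq_abs, div_le_iff₀ (by positivity)]
    calc Q ^ 2 ≤ V * A0 := hQ2
      _ ≤ ((r * d + δ) * A0) * A0 := mul_le_mul_of_nonneg_right hV hA0.le
      _ = _ := by ring
  have hD : |G1 / A1 - p| ≤ 2 * h + q := by
    have e : G1 / A1 - p = ((G1 - SXG) + Q - p * (A1 - SX)) / A1 := by
      rw [hQ]
      field_simp
      ring
    rw [e, abs_div, abs_of_pos hA1p, div_le_iff₀ hA1p]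
    have g1 : |(G1 - SXG) + Q - p * (A1 - SX)| ≤ |G1 - SXG| + |Q| + |p * (A1 - SX)| :=
      (abs_sub _ _).trans (add_le_add (abs_add_le _ _) le_rfl)
    have g2 : |p * (A1 - SX)| ≤ h * A0 := by
      rw [abs_mul, abs_of_nonneg hp0]
      calc p * |A1 - SX| ≤ 1 * |A1 - SX| := mul_le_mul_of_nonneg_right hp1 (abs_nonneg _)
        _ ≤ _ := by rw [one_mul]; exact h2
    have g3 : |Q| = q * A0 := by rw [hq]; field_simp
    have g4 : (2 * h + q) * A0 ≤ (2 * h + q) * A1 := by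
      refine mul_le_mul_of_nonneg_left ?_ (by positivity)
      rw [hA1]; nlinarith
    linarith
  have h5 : (G1 / A1 - p) ^ 2 ≤ (2 * h + q) ^ 2 := by
    rw [← sq_abs]
    exact pow_le_pow_left₀ (abs_nonneg _) hD 2
  have h6 : (2 * h + q) ^ 2 ≤ 8 * h + 2 * q ^ 2 := by nlinarith [sq_nonneg (2 * h - q)]
  have h7 : r * (d + δ) ≤ 26 * (d + δ) := mul_le_mul_of_nonneg_right hr (by linarith)
  have hδ : 0 ≤ r * δ := mul_nonneg (by linarith) hδ0
  linarith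

/-- one step -/
theorem law_step : ∀ᶠ n : ℕ in atTop, ∀ G : List Dir → ℝ, (∀ w, 0 ≤ G w ∧ G w ≤ 1) →
    (∀ w, SAP w → ∀ i d, site w i d → G (ins w i d) = G w) →
    ((∑ w ∈ KT (n + 2), G w) / c (n + 2) - (∑ w ∈ KT n, G w) / c n) ^ 2 ≤
      52 * (rr (n + 2) - rr n) + 10 ^ 30 / n := by
  filter_upwards [tr2, second, rr_one, diff2 (1 / 3) (by norm_num) le_rfl,
    eventually_ge_atTop (10 ^ 26)] with n h1 h2 h3 h4 hn G hG hinv
  have hn0 : (0 : ℝ) < n := by exact_mod_cast (show 0 < n by omega)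
  have hnR : (10 : ℝ) ^ 26 ≤ n := by exact_mod_cast hn
  have hc := c_pos n
  have A0 : ((KT n).card : ℝ) = c n := card_KT (by omega)
  have A1 : ((KT (n + 2)).card : ℝ) = c (n + 2) := card_KT (by omega)
  have hab : ∀ w, |G w| ≤ 1 := fun w => abs_le.2 ⟨by linarith [(hG w).1], (hG w).2⟩
  have e1 : |(c (n + 2) : ℝ) - ∑ w ∈ KT n, X w| ≤ 10 ^ 26 / n * c n := by
    have := h1 (fun _ => 1) 1 0 (by norm_num) le_rfl (fun w _ => by simp) (fun w _ => by simp)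
      (fun w _ _ i d _ => by simp)
    simp only [sum_const, nsmul_eq_mul, mul_one, mul_zero, add_zero] at this
    rw [A1, A0] at this
    refine this.trans (mul_le_mul_of_nonneg_right ?_ hc.le)
    exact div_le_div_of_nonneg_right (by norm_num) hn0.le
  have e2 : |∑ w ∈ KT (n + 2), G w - ∑ w ∈ KT n, X w * G w| ≤ 10 ^ 26 / n * c n := by
    have := h1 G 1 0 (by norm_num) le_rfl (fun w _ => hab w) (fun w _ => hab w)
      (fun w hw _ i d hs => by rw [hinv w (mem_KT.1 hw).2 i d hs]; simp)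
    rw [A0] at this
    refine this.trans (mul_le_mul_of_nonneg_right ?_ hc.le)
    rw [mul_zero, add_zero]
    exact div_le_div_of_nonneg_right (by norm_num) hn0.le
  set p : ℝ := (∑ w ∈ KT n, G w) / c n with hp
  have hG0 : 0 ≤ ∑ w ∈ KT n, G w := sum_nonneg fun w _ => (hG w).1
  have hG1 : ∑ w ∈ KT n, G w ≤ c n := by
    rw [← A0, ← nsmul_one, ← sum_const]
    exact sum_le_sum fun w _ => (hG w).2
  have hp0 : 0 ≤ p := by positivity
  have hp1 : p ≤ 1 := by rw [hp, div_le_one hc]; exact hG1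
  have hQ : ∑ w ∈ KT n, (X w - rr n) * (G w - p) =
      ∑ w ∈ KT n, X w * G w - p * ∑ w ∈ KT n, X w := by
    have e : ∑ w ∈ KT n, (X w - rr n) * (G w - p) = ∑ w ∈ KT n, X w * G w -
        p * ∑ w ∈ KT n, X w - rr n * ∑ w ∈ KT n, G w + rr n * p * (KT n).card := by
      rw [mul_sum, mul_sum, mul_comm (rr n * p), ← nsmul_eq_mul, ← sum_const,
        ← sum_sub_distrib, ← sum_sub_distrib, ← sum_add_distrib]
      exact sum_congr rfl fun w _ => by ring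
    rw [e, A0]
    have : p * c n = ∑ w ∈ KT n, G w := by rw [hp]; field_simp
    rw [← this]
    ring
  have hQ2 : (∑ w ∈ KT n, (X w - rr n) * (G w - p)) ^ 2 ≤
      (∑ w ∈ KT n, (X w - rr n) ^ 2) * c n := by
    refine (sum_mul_sq_le_sq_mul_sq _ _ _).trans ?_
    refine mul_le_mul_of_nonneg_left ?_ (sum_nonneg fun w _ => sq_nonneg _)
    rw [← A0, ← nsmul_one, ← sum_const]
    refine sum_le_sum fun w _ => ?_
    have h5 := hG w
    have : |G w - p| ≤ 1 := abs_le.2 ⟨by linarith, by linarith⟩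
    calc (G w - p) ^ 2 = |G w - p| ^ 2 := (sq_abs _).symm
      _ ≤ 1 ^ 2 := pow_le_pow_left₀ (abs_nonneg _) this 2
      _ = 1 := one_pow 2
  have hV : ∑ w ∈ KT n, (X w - rr n) ^ 2 ≤
      (rr n * (rr (n + 2) - rr n) + 10 ^ 28 / n) * c n := by
    have g1 := (abs_le.1 (h2 (rr n) (by linarith) (by linarith))).2
    rw [sub_self, A0] at g1
    nlinarith
  have hh1 : (10 : ℝ) ^ 26 / n ≤ 1 := by rw [div_le_one hn0]; exact hnR
  have k := law_alg hc (rr_mul n) h3.1 h3.2 hG0 hG1 e2 e1 hh1 (by positivity) hQ hQ2 hV h4.1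
    (by positivity)
  refine k.trans ?_
  have e6 : (10 : ℝ) ^ 30 / n = 10 ^ 30 * (1 / n) := by ring
  have e7 : (10 : ℝ) ^ 28 / n = 10 ^ 28 * (1 / n) := by ring
  have e8 : (10 : ℝ) ^ 26 / n = 10 ^ 26 * (1 / n) := by ring
  have e9 : 0 < 1 / (n : ℝ) := by positivity
  rw [e6, e7, e8]
  linarith

/-- the number of walks of length `n` with end point in `A`, divided by the number of walks -/
def pr (n : ℕ) (A : Set (Fin 3 → ℤ)) : ℝ :=
  (∑ w ∈ KT n, if E (pos w) ∈ A then (1 : ℝ) else 0) / c n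

/-- **windows** -/
theorem law_sum (ε : ℝ) (hε : 0 < ε) (hε1 : ε < 1 / 3) : ∃ K : ℝ, 0 ≤ K ∧ ∀ᶠ n : ℕ in atTop,
    ∀ (J : ℕ) (A : ℕ → Set (Fin 3 → ℤ)),
      ∑ i ∈ range J, (pr (n + 2 * i + 2) (A i) - pr (n + 2 * i) (A i)) ^ 2 ≤
        K * ((n : ℝ) ^ (-(1 / 3 : ℝ) + ε) + J / n) := by
  obtain ⟨K, hK0, hK⟩ := rr_near ε hε
  obtain ⟨N1, hN1⟩ := eventually_atTop.1 hK
  obtain ⟨N2, hN2⟩ := eventually_atTop.1 law_step
  refine ⟨104 * K + 10 ^ 30, by positivity, ?_⟩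
  filter_upwards [eventually_ge_atTop (N1 + N2 + 1)] with n hn J A
  have hn0 : (0 : ℝ) < n := by exact_mod_cast (show 0 < n by omega)
  have hstep : ∀ i ∈ range J, (pr (n + 2 * i + 2) (A i) - pr (n + 2 * i) (A i)) ^ 2 ≤
      52 * (rr (n + 2 * (i + 1)) - rr (n + 2 * i)) + 10 ^ 30 / n := by
    intro i _
    have h1 := hN2 (n + 2 * i) (by omega) (fun w => if E (pos w) ∈ A i then (1 : ℝ) else 0)
      (fun w => by split_ifs <;> norm_num)
      (fun w _ j d hs => by rw [pos_ins w j d hs.1])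
    have h2 : (10 : ℝ) ^ 30 / ((n + 2 * i : ℕ) : ℝ) ≤ 10 ^ 30 / n :=
      div_le_div_of_nonneg_left (by norm_num) hn0 (by exact_mod_cast (by omega : n ≤ n + 2 * i))
    have e : n + 2 * (i + 1) = n + 2 * i + 2 := by ring
    rw [e]
    unfold pr
    linarith
  refine (sum_le_sum hstep).trans ?_
  rw [sum_add_distrib, ← mul_sum, sum_range_sub (fun i => rr (n + 2 * i)), sum_const, card_range,
    nsmul_eq_mul]
  have g1 := abs_le.1 (hN1 (n + 2 * J) (by omega))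
  have g2 := abs_le.1 (hN1 (n + 2 * 0) (by omega))
  have g3 : ((n + 2 * J : ℕ) : ℝ) ^ (-(1 / 3 : ℝ) + ε) ≤ (n : ℝ) ^ (-(1 / 3 : ℝ) + ε) :=
    Real.rpow_le_rpow_of_nonpos hn0 (by exact_mod_cast (by omega : n ≤ n + 2 * J)) (by linarith)
  have g4 := mul_le_mul_of_nonneg_left g3 hK0
  have e0 : n + 2 * 0 = n := by ring
  rw [e0] at g2 ⊢
  have g5 : 0 ≤ (n : ℝ) ^ (-(1 / 3 : ℝ) + ε) := by positivity
  have g6 : (J : ℝ) * (10 ^ 30 / n) = 10 ^ 30 * (J / n) := by ring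
  have g7 : 0 ≤ (J : ℝ) / n := by positivity
  have g8 : 0 ≤ K * (J / n) := mul_nonneg hK0 g7
  rw [g6]
  linarith

/-- the law of the end point -/
theorem pr_eq {n : ℕ} (hn : 4 ≤ n) (A : Set (Fin 3 → ℤ)) :
    pr n A = ({ω | IsSAW n ω ∧ ω (Fin.last n) ∈ A}.ncard : ℝ) / {ω | IsSAW n ω}.ncard := by
  unfold pr
  rw [ncard_eq]
  congr 1
  rw [← sum_filter, sum_const, nsmul_one, KT_eq hn]
  congr 1
  have h1 : {ω | IsSAW n ω ∧ ω (Fin.last n) ∈ A} =
      wk n '' (((SS n).filter (fun w => E (pos w) ∈ A) : Finset (List Dir)) : Set (List Dir)) := by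
    ext ω
    simp only [Set.mem_image, Finset.coe_filter, Set.mem_ofPred_eq]
    constructor
    · rintro ⟨h, hA⟩
      obtain ⟨w, hw, rfl⟩ := (bij n).surjOn h
      refine ⟨w, ⟨hw, ?_⟩, rfl⟩
      rw [wk_last (mem_SS.1 (Finset.mem_coe.1 hw)).1] at hA
      exact hA
    · rintro ⟨w, ⟨hw, hA⟩, rfl⟩
      refine ⟨(bij n).mapsTo hw, ?_⟩
      rw [wk_last (mem_SS.1 hw).1]
      exact hA
  rw [h1, Set.ncard_image_of_injOn, Set.ncard_coe_finset]
  exact (bij n).injOn.mono fun w hw => (mem_filter.1 (Finset.mem_coe.1 hw)).1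

end

end TH966.KO.X77
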