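import Pool.Agent.TH966.KO.WConv

/-!
# Self-avoiding walks on `ℤ³`: the ratio of free plaquettes and bumps, and the transfer lemma
-/

set_option autoImplicit false

namespace TH966.KO.X77

open Finset Filter Topology KN
open scoped Classical

noncomputable section

/-- the ratio of free plaquettes and bumps, cut at `10 ^ 8` -/
def X (w : List Dir) : ℝ := min ((fr w : ℝ) / (bu w : ℝ)) (10 ^ 8)

theorem X_nonneg (w : List Dir) : 0 ≤ X w := le_min (by positivity) (by norm_num)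

theorem X_le (w : List Dir) : X w ≤ 10 ^ 8 := min_le_right _ _

theorem X_good (n : ℕ) (w : List Dir) (hn : 10 ^ 10 ≤ n) (hw : w ∈ KT n)
    (hg : CONV.good n w) : X w = (fr w : ℝ) / (bu w : ℝ) := by
  refine min_eq_left ?_
  have hn0 : 0 < n := by omega
  have hb : 0 < bu w := by
    have := hg.2; omega
  have hb' : (0 : ℝ) < bu w := by exact_mod_cast hb
  have h1 := CONV.fr_le w
  rw [(mem_KT.1 hw).1] at h1
  have h2 : (fr w : ℝ) ≤ 6 * n := by exact_mod_cast h1
  have h3 : (n : ℝ) ≤ 10 ^ 7 * bu w := by exact_mod_cast hg.2.le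
  rw [div_le_iff₀ hb']
  linarith

/-- the ratio changes little on good words -/
theorem X_lip (n : ℕ) (hn : 10 ^ 10 ≤ n) (w : List Dir) (hw : w ∈ KT n) (hg : CONV.good n w)
    (i : ℕ) (d : Dir) (hs : site w i d) : |X (ins w i d) - X w| ≤ 10 ^ 16 / n := by
  have hnR : (10 : ℝ) ^ 10 ≤ n := by exact_mod_cast hn
  have hn0 : (0 : ℝ) < n := by linarith
  have h1 := CONV.fr_le w
  rw [(mem_KT.1 hw).1] at h1
  obtain ⟨c1, c2, c3, c4⟩ := S_change_proof w i d (mem_KT.1 hw).2 hs
  have h2 : (fr w : ℝ) ≤ 6 * n := by exact_mod_cast h1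
  have h3 : (n : ℝ) < 10 ^ 7 * bu w := by exact_mod_cast hg.2
  have h4 : (n : ℝ) < 10 ^ 7 * fr w := by exact_mod_cast hg.1
  have c1' : (fr w : ℝ) ≤ fr (ins w i d) + 28 := by exact_mod_cast c1
  have c2' : (fr (ins w i d) : ℝ) ≤ fr w + 12 := by exact_mod_cast c2
  have c3' : (bu (ins w i d) : ℝ) ≤ bu w + 5 := by exact_mod_cast c3
  have c4' : (bu w : ℝ) ≤ bu (ins w i d) + 3 := by exact_mod_cast c4
  obtain ⟨F, hF⟩ : ∃ F : ℝ, F = fr w := ⟨_, rfl⟩
  obtain ⟨B, hB⟩ : ∃ B : ℝ, B = bu w := ⟨_, rfl⟩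
  obtain ⟨F', hF'⟩ : ∃ F : ℝ, F = fr (ins w i d) := ⟨_, rfl⟩
  obtain ⟨B', hB'⟩ : ∃ B : ℝ, B = bu (ins w i d) := ⟨_, rfl⟩
  have hX : X w = min (F / B) (10 ^ 8) := by rw [hF, hB]; rfl
  have hX' : X (ins w i d) = min (F' / B') (10 ^ 8) := by rw [hF', hB']; rfl
  rw [← hF] at h2 h4 c1' c2'
  rw [← hB] at h3 c3' c4'
  rw [← hF'] at c1' c2'
  rw [← hB'] at c3' c4'
  rw [hX, hX']
  have hB0 : 0 < B := by linarith
  have hB1 : 1000 < B := by linarith
  have hB'0 : B / 2 ≤ B' := by linarith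
  have hB'1 : 0 < B' := by linarith
  refine (abs_min_sub_min_le_max _ _ _ _).trans ?_
  rw [sub_self, abs_zero, max_le_iff]
  refine ⟨?_, by positivity⟩
  have e : F' / B' - F / B = ((F' - F) * B - F * (B' - B)) / (B' * B) := by
    field_simp
    ring
  rw [e, abs_div, abs_of_pos (mul_pos hB'1 hB0), div_le_div_iff₀ (mul_pos hB'1 hB0) hn0]
  have g1 : |(F' - F) * B - F * (B' - B)| ≤ 28 * B + F * 5 := by
    have a1 : |F' - F| ≤ 28 := abs_le.2 ⟨by linarith, by linarith⟩
    have a2 : |B' - B| ≤ 5 := abs_le.2 ⟨by linarith, by linarith⟩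
    have a3 : 0 ≤ F := by linarith
    calc |(F' - F) * B - F * (B' - B)| ≤ |(F' - F) * B| + |F * (B' - B)| := abs_sub _ _
      _ = |F' - F| * B + F * |B' - B| := by
        rw [abs_mul, abs_mul, abs_of_pos hB0, abs_of_nonneg a3]
      _ ≤ 28 * B + F * 5 := by
        refine add_le_add (mul_le_mul_of_nonneg_right a1 hB0.le) ?_
        exact mul_le_mul_of_nonneg_left a2 a3
  have g2 : 28 * B + F * 5 ≤ 4 * 10 ^ 8 * B := by linarith
  calc |(F' - F) * B - F * (B' - B)| * n ≤ (4 * 10 ^ 8 * B) * (10 ^ 7 * B) := by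
        refine mul_le_mul (g1.trans g2) h3.le hn0.le (by positivity)
    _ = 4 * 10 ^ 15 * (B * B) := by ring
    _ ≤ 10 ^ 16 * (B' * B) := by
        have : B / 2 * B ≤ B' * B := mul_le_mul_of_nonneg_right hB'0 hB0.le
        have h5 : 0 < B * B := mul_pos hB0 hB0
        linarith

/-- the number of bad words -/
def bd (n : ℕ) : ℝ := bad (fun _ => True) n

theorem bd_nonneg (n : ℕ) : 0 ≤ bd n := Nat.cast_nonneg _

theorem bd_card (n : ℕ) : (((KT n).filter (fun w => ¬ CONV.good n w)).card : ℝ) = bd n := by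
  unfold bd bad
  congr 2
  apply filter_congr
  intro w _
  rw [CONV.not_good]

/-- the transfer lemma -/
theorem transfer (n : ℕ) (hn : 10 ^ 10 ≤ n) (G : List Dir → ℝ) (M L : ℝ) (hM : 0 ≤ M)
    (hL : 0 ≤ L) (h1 : ∀ w ∈ KT n, |G w| ≤ M) (h2 : ∀ w ∈ KT (n + 2), |G w| ≤ M)
    (h3 : ∀ w ∈ KT n, CONV.good n w → ∀ i d, site w i d → |G (ins w i d) - G w| ≤ L) :
    |∑ w ∈ KT (n + 2), G w - ∑ w ∈ KT n, X w * G w| ≤
      (10 ^ 17 * M / n + 10 ^ 8 * L) * (KT n).card +
        (M * bd (n + 2) + (6 * n + 10 ^ 8) * M * bd n) := by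
  have hnR : (10 : ℝ) ^ 10 ≤ n := by exact_mod_cast hn
  have hn0 : (0 : ℝ) < n := by linarith
  have hS := o_sum (fun _ => True) invT n (by omega) (fun _ w' => G w' * (1 / (bu w' : ℝ)))
  change ∑ w ∈ KT n, ∑ q ∈ sites w, G (ins w q.1 q.2) * (1 / (bu (ins w q.1 q.2) : ℝ)) =
    ∑ w ∈ KT (n + 2), ∑ j ∈ bumps w, G w * (1 / (bu w : ℝ)) at hS
  -- words of length `n + 2`
  have a1 : |∑ w ∈ KT (n + 2), G w - ∑ w ∈ KT (n + 2), ∑ j ∈ bumps w, G w * (1 / (bu w : ℝ))| ≤
      M * bd (n + 2) := by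
    rw [← bd_card, mul_comm M, ← nsmul_eq_mul, ← sum_const, sum_filter, ← sum_sub_distrib]
    refine (abs_sum_le_sum_abs _ _).trans (sum_le_sum fun w hw => ?_)
    by_cases hg : CONV.good (n + 2) w
    · have hb : 0 < bu w := by
        have h2 : n + 2 < 10 ^ 7 * bu w := hg.2
        omega
      rw [if_neg (not_not.mpr hg), ← mul_sum, CONV.sum_inv_eq w hb, mul_one, sub_self, abs_zero]
    · rw [if_pos hg, ← mul_sum]
      have e : G w - G w * ∑ j ∈ bumps w, 1 / (bu w : ℝ) =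
          G w * (1 - ∑ j ∈ bumps w, 1 / (bu w : ℝ)) := by ring
      rw [e, abs_mul]
      have b1 := CONV.sum_inv_le w
      have b2 : 0 ≤ ∑ j ∈ bumps w, 1 / (bu w : ℝ) := sum_nonneg fun _ _ => by positivity
      have b3 : |1 - ∑ j ∈ bumps w, 1 / (bu w : ℝ)| ≤ 1 := abs_le.2 ⟨by linarith, by linarith⟩
      calc |G w| * |1 - ∑ j ∈ bumps w, 1 / (bu w : ℝ)| ≤ M * 1 :=
            mul_le_mul (h2 w hw) b3 (abs_nonneg _) hM
        _ = M := mul_one M
  -- words of length `n`
  have a2 : |∑ w ∈ KT n, ∑ q ∈ sites w, G (ins w q.1 q.2) * (1 / (bu (ins w q.1 q.2) : ℝ)) -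
      ∑ w ∈ KT n, X w * G w| ≤ (10 ^ 17 * M / n + 10 ^ 8 * L) * (KT n).card +
        (6 * n + 10 ^ 8) * M * bd n := by
    rw [← sum_sub_distrib]
    refine (abs_sum_le_sum_abs _ _).trans ?_
    have b0 : ∀ w ∈ KT n, |∑ q ∈ sites w, G (ins w q.1 q.2) * (1 / (bu (ins w q.1 q.2) : ℝ)) -
        X w * G w| ≤ (10 ^ 17 * M / n + 10 ^ 8 * L) +
          (if ¬ CONV.good n w then (6 * n + 10 ^ 8) * M else 0) := by
      intro w hw
      have hlen := CONV.fr_le w
      rw [(mem_KT.1 hw).1] at hlen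
      have hlenR : (fr w : ℝ) ≤ 6 * n := by exact_mod_cast hlen
      have hGw := h1 w hw
      have hpos : 0 ≤ 10 ^ 17 * M / n + 10 ^ 8 * L := by positivity
      by_cases hg : CONV.good n w
      · rw [if_neg (not_not.mpr hg), add_zero]
        have hb : 1000 < bu w := by
          have := hg.2; omega
        have hb' : (1000 : ℝ) < bu w := by exact_mod_cast hb
        have hbn : (n : ℝ) < 10 ^ 7 * bu w := by exact_mod_cast hg.2
        have e1 : X w * G w = ∑ q ∈ sites w, G w * (1 / (bu w : ℝ)) := by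
          rw [X_good n w hn hw hg, sum_const, nsmul_eq_mul]
          change (fr w : ℝ) / bu w * G w = (fr w : ℝ) * (G w * (1 / bu w))
          ring
        rw [e1, ← sum_sub_distrib]
        refine (abs_sum_le_sum_abs _ _).trans ?_
        have key : ∀ q ∈ sites w, |G (ins w q.1 q.2) * (1 / (bu (ins w q.1 q.2) : ℝ)) -
            G w * (1 / (bu w : ℝ))| ≤ L * (1 / ((bu w : ℝ) - 3)) +
              M * (5 / ((bu w : ℝ) * ((bu w : ℝ) - 3))) := by
          intro q hq
          have hs : site w q.1 q.2 := mem_sites.mp hq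
          obtain ⟨-, -, c3, c4⟩ := S_change_proof w q.1 q.2 (mem_KT.1 hw).2 hs
          have c3' : (bu (ins w q.1 q.2) : ℝ) ≤ bu w + 5 := by exact_mod_cast c3
          have c4' : (bu w : ℝ) ≤ bu (ins w q.1 q.2) + 3 := by exact_mod_cast c4
          have e2 : G (ins w q.1 q.2) * (1 / (bu (ins w q.1 q.2) : ℝ)) - G w * (1 / (bu w : ℝ)) =
              (G (ins w q.1 q.2) - G w) * (1 / (bu (ins w q.1 q.2) : ℝ)) +
                G w * (1 / (bu (ins w q.1 q.2) : ℝ) - 1 / (bu w : ℝ)) := by ring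
          rw [e2]
          refine (abs_add_le _ _).trans ?_
          rw [abs_mul, abs_mul]
          have hB' : (0 : ℝ) < bu (ins w q.1 q.2) := by linarith
          have k1 : |1 / (bu (ins w q.1 q.2) : ℝ)| ≤ 1 / ((bu w : ℝ) - 3) := by
            rw [abs_of_pos (by positivity)]
            apply one_div_le_one_div_of_le <;> linarith
          have k2 : |1 / (bu (ins w q.1 q.2) : ℝ) - 1 / (bu w : ℝ)| ≤
              5 / ((bu w : ℝ) * ((bu w : ℝ) - 3)) := by
            have e3 : 1 / (bu (ins w q.1 q.2) : ℝ) - 1 / (bu w : ℝ) =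
                ((bu w : ℝ) - bu (ins w q.1 q.2)) / ((bu w : ℝ) * bu (ins w q.1 q.2)) := by
              have : (bu w : ℝ) ≠ 0 := by linarith
              field_simp
            have hBw : (0 : ℝ) < bu w := by linarith
            rw [e3, abs_div, abs_of_pos (show 0 < (bu w : ℝ) * bu (ins w q.1 q.2) by positivity)]
            apply div_le_div₀ (by norm_num)
            · exact abs_le.2 ⟨by linarith, by linarith⟩
            · exact mul_pos hBw (by linarith)
            · exact mul_le_mul_of_nonneg_left (by linarith) hBw.le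
          exact add_le_add (mul_le_mul (h3 w hw hg q.1 q.2 hs) k1 (abs_nonneg _) hL)
            (mul_le_mul hGw k2 (abs_nonneg _) hM)
        refine (sum_le_sum key).trans ?_
        rw [sum_const, nsmul_eq_mul]
        change (fr w : ℝ) * _ ≤ _
        have p3 : (0 : ℝ) < (bu w : ℝ) - 3 := by linarith
        have p4 : (0 : ℝ) < (bu w : ℝ) := by linarith
        have q1 : (fr w : ℝ) * (1 / ((bu w : ℝ) - 3)) ≤ 10 ^ 8 := by
          rw [mul_one_div, div_le_iff₀ p3]
          linarith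
        have q2 : (fr w : ℝ) * (5 / ((bu w : ℝ) * ((bu w : ℝ) - 3))) ≤ 10 ^ 17 / n := by
          rw [mul_div_assoc', div_le_div_iff₀ (by positivity) hn0]
          have r1 : (fr w : ℝ) * 5 * n ≤ (30 * n) * (10 ^ 7 * bu w) := by
            refine mul_le_mul (by linarith) hbn.le hn0.le (by positivity)
          have r2 : (30 * (n : ℝ)) * (10 ^ 7 * bu w) ≤ (30 * (10 ^ 7 * bu w)) * (10 ^ 7 * bu w) :=
            mul_le_mul_of_nonneg_right (by linarith) (by positivity)
          have r3 : (bu w : ℝ) / 2 * bu w ≤ bu w * ((bu w : ℝ) - 3) := by nlinarith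
          nlinarith
        calc (fr w : ℝ) * (L * (1 / ((bu w : ℝ) - 3)) +
              M * (5 / ((bu w : ℝ) * ((bu w : ℝ) - 3))))
            = L * ((fr w : ℝ) * (1 / ((bu w : ℝ) - 3))) +
              M * ((fr w : ℝ) * (5 / ((bu w : ℝ) * ((bu w : ℝ) - 3)))) := by ring
          _ ≤ L * 10 ^ 8 + M * (10 ^ 17 / n) :=
              add_le_add (mul_le_mul_of_nonneg_left q1 hL) (mul_le_mul_of_nonneg_left q2 hM)
          _ = _ := by ring
      · rw [if_pos hg]
        have k1 : |∑ q ∈ sites w, G (ins w q.1 q.2) * (1 / (bu (ins w q.1 q.2) : ℝ))| ≤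
            6 * n * M := by
          refine (abs_sum_le_sum_abs _ _).trans ?_
          have : ∀ q ∈ sites w, |G (ins w q.1 q.2) * (1 / (bu (ins w q.1 q.2) : ℝ))| ≤ M := by
            intro q hq
            have hs : site w q.1 q.2 := mem_sites.mp hq
            obtain ⟨i1, i2, -, -, -⟩ := S_ins_proof w q.1 q.2 (mem_KT.1 hw).2 hs
            have hm : ins w q.1 q.2 ∈ KT (n + 2) := by
              rw [mem_KT, i2, (mem_KT.1 hw).1]
              exact ⟨rfl, i1⟩
            rw [abs_mul, abs_of_nonneg (show (0 : ℝ) ≤ 1 / (bu (ins w q.1 q.2) : ℝ) by positivity)]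
            calc |G (ins w q.1 q.2)| * (1 / (bu (ins w q.1 q.2) : ℝ)) ≤ M * 1 :=
                  mul_le_mul (h2 _ hm) (CONV.inv_le_one _) (by positivity) hM
              _ = M := mul_one M
          refine (sum_le_sum this).trans ?_
          rw [sum_const, nsmul_eq_mul]
          exact mul_le_mul_of_nonneg_right hlenR hM
        have k2 : |X w * G w| ≤ 10 ^ 8 * M := by
          rw [abs_mul, abs_of_nonneg (X_nonneg w)]
          exact mul_le_mul (X_le w) hGw (abs_nonneg _) (by norm_num)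
        refine (abs_sub _ _).trans ?_
        have : (6 * (n : ℝ) + 10 ^ 8) * M = 6 * n * M + 10 ^ 8 * M := by ring
        linarith
    refine (sum_le_sum b0).trans ?_
    rw [sum_add_distrib, ← sum_filter, sum_const, sum_const, nsmul_eq_mul, nsmul_eq_mul, bd_card]
    exact le_of_eq (by ring)
  rw [hS] at a2
  have e : ∑ w ∈ KT (n + 2), G w - ∑ w ∈ KT n, X w * G w =
      (∑ w ∈ KT (n + 2), G w - ∑ w ∈ KT (n + 2), ∑ j ∈ bumps w, G w * (1 / (bu w : ℝ))) +
      (∑ w ∈ KT (n + 2), ∑ j ∈ bumps w, G w * (1 / (bu w : ℝ)) - ∑ w ∈ KT n, X w * G w) := by ring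
  rw [e]
  refine (abs_add_le _ _).trans ?_
  linarith

end

end TH966.KO.X77
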